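import Pool.Agent.Results.MP_28b958_pr.IdlaFills

/-!
# The mean filling time of internal DLA on a finite transitive graph

For internal DLA with uniform driving on a finite connected vertex-transitive graph with `n ≥ 2`
vertices the filling time `T` satisfies `n - 1 ≤ T`, `E T ≤ n + 180 n / log n` and
`P (T > n + a n / log n) ≤ 180 / a` for all `a > 0`.  So `T / n → 1` in mean (and in probability),
with an explicit rate which is uniform over all such graphs.
-/

open MeasureTheory ProbabilityTheory Filter Topology Finset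
open scoped ENNReal
open Pool.Agent.H719R3
open Pool.Agent.Results.MP_28b958_pr.IdlaFills

set_option linter.unusedSectionVars false

namespace Pool.Agent.Results.MP_28b958_pr.MeanFillingTime

section Chain

variable {V : Type*} [Fintype V] [DecidableEq V] (G : SimpleGraph V) [DecidableRel G.Adj]
variable {p : Finset V → V → ℝ} {z : V}

lemma Kit_sum (t m : ℕ) (h : ℕ → Finset V × ℕ → ℝ) (s : Finset V × ℕ) :
    ∑ j ∈ range m, Kit p z t (h j) s = Kit p z t (fun s' => ∑ j ∈ range m, h j s') s := by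
  induction t generalizing s with
  | zero => rfl
  | succ t ih =>
    simp only [Kit]
    rw [sum_comm]
    refine sum_congr rfl fun v _ => ?_
    rw [← mul_sum, ih]

/-- The expected number of steps after time `n - 1`. -/
theorem sum_bound (hG : G.Connected) (hT : Trans G) (hn : 2 ≤ Fintype.card V)
    (hp : ∀ σ, z ∉ σ → ExitLaw G z σ (p σ)) (η : ℝ) (hη0 : 0 < η) (hη1 : η ≤ 1) (K : ℕ)
    (hK : 1 ≤ K * η) (m : ℕ) :
    ∑ j ∈ range m, Kit p z (Fintype.card V - 1 + j) (nf z) (∅, 0) ≤
      2 * (1 + η * Fintype.card V + (1 / 2 + 5 * 4 ^ K) * Real.sqrt (Fintype.card V)) := by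
  have hnR : (2 : ℝ) ≤ Fintype.card V := by exact_mod_cast hn
  set n : ℝ := (Fintype.card V : ℝ) with hnd
  have hsq : 0 < Real.sqrt n := Real.sqrt_pos.2 (by linarith)
  have hsq2 : Real.sqrt n * Real.sqrt n = n := Real.mul_self_sqrt (by linarith)
  have hg := gr_diag_pos G hG hT z hn
  set g0 := gr G hG z z with hg0
  have h4K : (0 : ℝ) < 4 ^ K := by positivity
  simp only [Kit_add]
  rw [Kit_sum]
  have step1 : Kit p z (Fintype.card V - 1)
      (fun s' => ∑ j ∈ range m, Kit p z j (nf z) s') (∅, 0) ≤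
      Kit p z (Fintype.card V - 1)
        (fun s => 2 * (1 + η * n + 1 / 2 * Real.sqrt n) +
          (2 * (4 ^ K / (g0 * Real.sqrt n))) * En G hG z s.1 s.2) (∅, 0) := by
    apply Kit_mono G hp _ _ (by simp)
    intro s hs hc
    simp only [card_empty, zero_add] at hc
    have hcard : (s.1.card : ℝ) + s.2 = n - 1 := by
      have h1 : s.1.card + s.2 + 1 = Fintype.card V := by omega
      have h2 : ((s.1.card + s.2 + 1 : ℕ) : ℝ) = n := by rw [h1]
      push_cast at h2; linarith
    have h2 := Kit_nf_sum G hG hT hn hp m s hs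
    have h3 : ∑ j ∈ range m, Kit p z j (nf z) s ≤ 2 * s.2 := by
      refine h2.trans ?_
      rw [← hnd]; linarith
    refine h3.trans ?_
    have h4 := lost_energy G hG hT z hn η hη0 hη1 K hK s.1 s.2 (by omega)
    rw [← hnd, ← hg0] at h4
    set x : ℝ := max 0 ((s.2 : ℝ) - (1 + η * n)) with hx
    have h5 : (s.2 : ℝ) ≤ (1 + η * n) + x := by
      have := le_max_right 0 ((s.2 : ℝ) - (1 + η * n)); linarith
    have h6 : x ≤ 1 / 2 * Real.sqrt n + 4 ^ K / (g0 * Real.sqrt n) * En G hG z s.1 s.2 := by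
      have h7 : x ^ 2 ≤ 2 * (4 ^ K / g0 * En G hG z s.1 s.2) := by
        have : x ^ 2 ≤ (2 * 4 ^ K * En G hG z s.1 s.2) / g0 := by
          rw [le_div_iff₀ hg]; exact h4
        refine this.trans (le_of_eq ?_)
        field_simp
      have h8 : x * Real.sqrt n ≤ 1 / 2 * (x ^ 2 + n) := by
        nlinarith [sq_nonneg (x - Real.sqrt n)]
      have h9 : x * Real.sqrt n ≤ (1 / 2 * Real.sqrt n +
          4 ^ K / (g0 * Real.sqrt n) * En G hG z s.1 s.2) * Real.sqrt n := by
        have e : (1 / 2 * Real.sqrt n + 4 ^ K / (g0 * Real.sqrt n) * En G hG z s.1 s.2) *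
            Real.sqrt n = 1 / 2 * n + 4 ^ K / g0 * En G hG z s.1 s.2 := by
          have : 4 ^ K / (g0 * Real.sqrt n) * En G hG z s.1 s.2 * Real.sqrt n =
              4 ^ K / g0 * En G hG z s.1 s.2 := by field_simp
          rw [add_mul, this, mul_assoc, hsq2]
        rw [e]; linarith
      exact le_of_mul_le_mul_right h9 hsq
    calc 2 * (s.2 : ℝ) ≤ 2 * ((1 + η * n) + (1 / 2 * Real.sqrt n +
          4 ^ K / (g0 * Real.sqrt n) * En G hG z s.1 s.2)) := by
          apply mul_le_mul_of_nonneg_left _ (by norm_num)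
          linarith
      _ = _ := by ring
  refine step1.trans ?_
  rw [Kit_affine G hp _ _ _ (fun s => En G hG z s.1 s.2) _ (by simp)]
  have hen := Kit_energy G hG hT hn hp (Fintype.card V - 1) (∅, 0) (by simp) (by simp)
  simp only [En_empty, zero_add] at hen
  have hcast : ((Fintype.card V - 1 : ℕ) : ℝ) ≤ n := by
    rw [hnd]; exact_mod_cast Nat.sub_le _ _
  have hen2 : Kit p z (Fintype.card V - 1) (fun s => En G hG z s.1 s.2) (∅, 0) ≤
      5 * g0 * n := by
    refine hen.trans ?_
    apply mul_le_mul_of_nonneg_left hcast; positivity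
  calc 2 * (1 + η * n + 1 / 2 * Real.sqrt n) +
        (2 * (4 ^ K / (g0 * Real.sqrt n))) *
          Kit p z (Fintype.card V - 1) (fun s => En G hG z s.1 s.2) (∅, 0) ≤
      2 * (1 + η * n + 1 / 2 * Real.sqrt n) +
        (2 * (4 ^ K / (g0 * Real.sqrt n))) * (5 * g0 * n) := by
        gcongr
    _ = 2 * (1 + η * n + (1 / 2 + 5 * 4 ^ K) * Real.sqrt n) := by
        have : 2 * (4 ^ K / (g0 * Real.sqrt n)) * (5 * g0 * n) =
            2 * (5 * 4 ^ K * Real.sqrt n) := by
          have e : n = Real.sqrt n * Real.sqrt n := hsq2.symm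
          rw [e]
          rw [Real.sqrt_mul_self hsq.le]
          field_simp
        rw [this]; ring

end Chain

/-- the choice of the parameters -/
theorem choice {n : ℝ} (hn : 2 ≤ n) : ∃ (η : ℝ) (K : ℕ), 0 < η ∧ η ≤ 1 ∧ 1 ≤ K * η ∧
    2 * (1 + η * n + (1 / 2 + 5 * 4 ^ K) * Real.sqrt n) ≤ 180 * (n / Real.log n) := by
  have hl : 0 < Real.log n := Real.log_pos (by linarith)
  obtain ⟨K, hK⟩ : ∃ K : ℕ, K = ⌊Real.log n / 6⌋₊ + 1 := ⟨_, rfl⟩
  have hK1 : Real.log n / 6 < K := by rw [hK]; push_cast; exact Nat.lt_floor_add_one _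
  have hK2 : (K : ℝ) ≤ Real.log n / 6 + 1 := by
    rw [hK]; push_cast
    have := Nat.floor_le (show 0 ≤ Real.log n / 6 by positivity)
    linarith
  have hK0 : (1 : ℝ) ≤ K := by
    have : 1 ≤ K := by omega
    exact_mod_cast this
  obtain ⟨q, hq⟩ : ∃ q : ℝ, q = Real.exp (Real.log n / 4) := ⟨_, rfl⟩
  have hq0 : 0 < q := by rw [hq]; exact Real.exp_pos _
  have hq4 : q ^ 4 = n := by
    rw [hq, ← Real.exp_nat_mul]
    push_cast
    rw [mul_div_cancel₀ _ (by norm_num : (4 : ℝ) ≠ 0), Real.exp_log (by linarith)]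
  have hsqrt : Real.sqrt n = q ^ 2 := by
    rw [← hq4, show q ^ 4 = (q ^ 2) ^ 2 by ring]
    exact Real.sqrt_sq (by positivity)
  have hlogq : Real.log n ≤ 4 * q := by
    have h1 := Real.add_one_le_exp (Real.log n / 4)
    rw [← hq] at h1
    linarith
  have hlog4 : Real.log 4 ≤ 3 / 2 := by
    have h2 : Real.log 4 = 2 * Real.log 2 := by
      rw [show (4 : ℝ) = 2 ^ 2 by norm_num, Real.log_pow]
      push_cast
      ring
    have := Real.log_two_lt_d9
    rw [h2]
    linarith
  have h4K : (4 : ℝ) ^ K ≤ 4 * q := by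
    rw [← Real.log_le_log_iff (by positivity) (by positivity), Real.log_pow,
      Real.log_mul (by norm_num) hq0.ne']
    have h1 : Real.log q = Real.log n / 4 := by rw [hq, Real.log_exp]
    rw [h1]
    have h2 : (0 : ℝ) < Real.log 4 := Real.log_pos (by norm_num)
    calc (K : ℝ) * Real.log 4 ≤ (Real.log n / 6 + 1) * Real.log 4 :=
          mul_le_mul_of_nonneg_right hK2 h2.le
      _ ≤ Real.log 4 + Real.log n / 4 := by nlinarith
  refine ⟨1 / K, K, by positivity, ?_, ?_, ?_⟩
  · rw [div_le_one (by linarith)]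
    exact hK0
  · rw [mul_one_div_cancel (by linarith)]
  · have hnl : (1 : ℝ) ≤ n / Real.log n := by
      rw [le_div_iff₀ hl]
      have := Real.log_le_sub_one_of_pos (show 0 < n by linarith)
      linarith
    have e1 : 1 / (K : ℝ) * n ≤ 6 * (n / Real.log n) := by
      have h1 : 1 / (K : ℝ) ≤ 6 / Real.log n := by
        rw [div_le_div_iff₀ (by linarith) hl]
        linarith
      calc 1 / (K : ℝ) * n ≤ 6 / Real.log n * n := mul_le_mul_of_nonneg_right h1 (by linarith)
        _ = 6 * (n / Real.log n) := by ring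
    have e2 : q ^ 3 ≤ 4 * (n / Real.log n) := by
      rw [← mul_div_assoc, le_div_iff₀ hl]
      calc q ^ 3 * Real.log n ≤ q ^ 3 * (4 * q) := mul_le_mul_of_nonneg_left hlogq (by positivity)
        _ = 4 * n := by rw [← hq4]; ring
    have hq1 : 1 ≤ q := by
      rw [hq]
      exact Real.one_le_exp (by positivity)
    have e3 : (1 / 2 + 5 * (4 : ℝ) ^ K) * Real.sqrt n ≤ 41 / 2 * q ^ 3 := by
      rw [hsqrt]
      calc (1 / 2 + 5 * (4 : ℝ) ^ K) * q ^ 2 ≤ (1 / 2 * q + 5 * (4 * q)) * q ^ 2 := by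
            apply mul_le_mul_of_nonneg_right _ (by positivity)
            linarith
        _ = 41 / 2 * q ^ 3 := by ring
    linarith

variable {V : Type} [Fintype V] [DecidableEq V] [MeasurableSpace V] [MeasurableSingletonClass V]

/-- The filling time: the least `t` such that all vertices except the sink are occupied after
`t` particles (infinite if there is none). -/
noncomputable def fillTime (z : V) (ω : ℕ → Particle V) : ℝ≥0∞ :=
  ⨅ (t : ℕ) (_ : occ z ω t = univ.erase z), (t : ℝ≥0∞)

theorem le_fillTime (z : V) (ω : ℕ → Particle V) :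
    ((Fintype.card V - 1 : ℕ) : ℝ≥0∞) ≤ fillTime z ω := by
  refine le_iInf₂ fun t ht => ?_
  have h3 := occ_card_le z ω t
  rw [ht, card_erase_of_mem (mem_univ z), card_univ] at h3
  exact_mod_cast h3

open Classical in
theorem measurable_fillTime (z : V) : Measurable (fillTime z) := by
  refine Measurable.iInf fun t => ?_
  have h1 : MeasurableSet {ω : ℕ → Particle V | occ z ω t = univ.erase z} := by
    have h2 := measurableSet_chain' z (∅, 0) {s' | s'.1 = univ.erase z} t
    simp only [Set.mem_ofPred_eq, ← occ_eq] at h2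
    exact h2
  have h3 : (fun ω : ℕ → Particle V => ⨅ (_ : occ z ω t = univ.erase z), (t : ℝ≥0∞)) =
      fun ω => if occ z ω t = univ.erase z then (t : ℝ≥0∞) else ⊤ := by
    funext ω
    split_ifs with h
    · simp [h]
    · simp [h]
  rw [h3]
  exact Measurable.ite h1 measurable_const measurable_const

open Classical in
theorem fillTime_le (z : V) (ω : ℕ → Particle V) :
    fillTime z ω ≤ ∑' t : ℕ, ({ω | (chain z (∅, 0) ω t).1 ≠ univ.erase z} :
      Set (ℕ → Particle V)).indicator 1 ω := by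
  by_cases h : ∃ t, occ z ω t = univ.erase z
  · refine (iInf₂_le (Nat.find h) (Nat.find_spec h)).trans ?_
    refine le_trans (le_of_eq ?_) (ENNReal.sum_le_tsum (range (Nat.find h)))
    have h1 : ∀ t ∈ range (Nat.find h), ({ω | (chain z (∅, 0) ω t).1 ≠ univ.erase z} :
        Set (ℕ → Particle V)).indicator (1 : (ℕ → Particle V) → ℝ≥0∞) ω = 1 := by
      intro t ht
      rw [Set.indicator_of_mem]
      · rfl
      · rw [Set.mem_ofPred_eq, ← occ_eq]
        exact Nat.find_min h (mem_range.1 ht)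
    rw [sum_congr rfl h1]
    simp
  · push Not at h
    have h1 : ∀ t, ({ω | (chain z (∅, 0) ω t).1 ≠ univ.erase z} :
        Set (ℕ → Particle V)).indicator (1 : (ℕ → Particle V) → ℝ≥0∞) ω = 1 := by
      intro t
      rw [Set.indicator_of_mem]
      · rfl
      · rw [Set.mem_ofPred_eq, ← occ_eq]
        exact h t
    rw [tsum_congr h1, ENNReal.tsum_const_eq_top_of_ne_zero one_ne_zero]
    exact le_top

theorem mean_bound (G : SimpleGraph V) [DecidableRel G.Adj] (hG : G.Connected) (hT : Trans G)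
    (hn : 2 ≤ Fintype.card V) (z : V) (η : ℝ) (hη0 : 0 < η) (hη1 : η ≤ 1) (K : ℕ)
    (hK : 1 ≤ K * η) :
    ∫⁻ ω, fillTime z ω ∂(idlaLaw G z) ≤ ENNReal.ofReal (((Fintype.card V : ℝ) - 1) +
      2 * (1 + η * Fintype.card V + (1 / 2 + 5 * 4 ^ K) * Real.sqrt (Fintype.card V))) := by
  have hP := particleLaw_prob G hG hn z
  have hPI : IsProbabilityMeasure (idlaLaw G z) := by unfold idlaLaw; infer_instance
  have hmeas : ∀ t, MeasurableSet {ω : ℕ → Particle V | (chain z (∅, 0) ω t).1 ≠ univ.erase z} :=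
    fun t => measurableSet_chain' z (∅, 0) {s' | s'.1 ≠ univ.erase z} t
  refine (lintegral_mono (fillTime_le z)).trans ?_
  rw [lintegral_tsum fun t => (measurable_one.indicator (hmeas t)).aemeasurable]
  have h1 : ∀ t, ∫⁻ ω, ({ω | (chain z (∅, 0) ω t).1 ≠ univ.erase z} :
      Set (ℕ → Particle V)).indicator (1 : (ℕ → Particle V) → ℝ≥0∞) ω ∂(idlaLaw G z) =
      idlaLaw G z {ω | (chain z (∅, 0) ω t).1 ≠ univ.erase z} :=
    fun t => lintegral_indicator_one (hmeas t)
  rw [tsum_congr h1]
  refine ENNReal.tsum_le_of_sum_range_le fun M => ?_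
  have h2 : ∑ t ∈ range M, idlaLaw G z {ω | (chain z (∅, 0) ω t).1 ≠ univ.erase z} ≤
      ∑ t ∈ range ((Fintype.card V - 1) + M),
        idlaLaw G z {ω | (chain z (∅, 0) ω t).1 ≠ univ.erase z} :=
    sum_le_sum_of_subset (range_mono (Nat.le_add_left _ _))
  refine h2.trans ?_
  rw [sum_range_add]
  have hb := sum_bound G hG hT hn (p := pr G z) (z := z)
    (fun σ hσ => exitLaw G hG hn z σ hσ) η hη0 hη1 K hK M
  have h3 : ∑ t ∈ range (Fintype.card V - 1),
      idlaLaw G z {ω | (chain z (∅, 0) ω t).1 ≠ univ.erase z} ≤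
      ENNReal.ofReal ((Fintype.card V : ℝ) - 1) := by
    refine (sum_le_sum fun t _ => prob_le_one).trans ?_
    rw [sum_const, card_range, nsmul_one]
    rw [← ENNReal.ofReal_natCast, Nat.cast_sub (by omega)]
    simp
  have h4 : ∑ x ∈ range M, idlaLaw G z
      {ω | (chain z (∅, 0) ω (Fintype.card V - 1 + x)).1 ≠ univ.erase z} ≤
      ENNReal.ofReal (2 * (1 + η * Fintype.card V +
        (1 / 2 + 5 * 4 ^ K) * Real.sqrt (Fintype.card V))) := by
    have h5 : ∀ x ∈ range M, idlaLaw G z
        {ω | (chain z (∅, 0) ω (Fintype.card V - 1 + x)).1 ≠ univ.erase z} =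
        ENNReal.ofReal (Kit (pr G z) z (Fintype.card V - 1 + x) (nf z) (∅, 0)) := by
      intro x _
      rw [← chain_law G hG hn z, ENNReal.ofReal_toReal (measure_ne_top _ _)]
    rw [sum_congr rfl h5, ← ENNReal.ofReal_sum_of_nonneg]
    · exact ENNReal.ofReal_le_ofReal hb
    · intro x _
      rw [← chain_law G hG hn z]
      exact ENNReal.toReal_nonneg
  rw [ENNReal.ofReal_add]
  · exact add_le_add h3 h4
  · have : (2 : ℝ) ≤ Fintype.card V := by exact_mod_cast hn
    linarith
  · positivity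

/-- **Theorem.** For all finite connected vertex-transitive graphs with `n ≥ 2` vertices and every
sink the filling time `T` is at least `n - 1`, its mean is at most `n + 180 n / log n`, and
`P (T > n + a n / log n) ≤ 180 / a` for every `a > 0`; and `T / n → 1` in probability, uniformly. -/
theorem result :
    (∀ (V : Type) [Fintype V] [DecidableEq V] [MeasurableSpace V] [MeasurableSingletonClass V]
        (G : SimpleGraph V) [DecidableRel G.Adj],
        G.Connected → (∀ x y : V, ∃ φ : G ≃g G, φ x = y) → 2 ≤ Fintype.card V → ∀ z : V,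
        Measurable (fillTime z) ∧
        (∀ ω, ((Fintype.card V - 1 : ℕ) : ℝ≥0∞) ≤ fillTime z ω) ∧
        ∫⁻ ω, fillTime z ω ∂(idlaLaw G z) ≤ ENNReal.ofReal ((Fintype.card V : ℝ) +
          180 * (Fintype.card V / Real.log (Fintype.card V))) ∧
        ∀ a : ℝ, 0 < a → idlaLaw G z {ω | ENNReal.ofReal ((Fintype.card V : ℝ) +
            a * (Fintype.card V / Real.log (Fintype.card V))) < fillTime z ω} ≤
          ENNReal.ofReal (180 / a)) ∧
    ∀ ε : ℝ, 0 < ε → ∀ δ : ℝ, 0 < δ → ∃ N : ℕ,
      ∀ (V : Type) [Fintype V] [DecidableEq V] [MeasurableSpace V] [MeasurableSingletonClass V]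
        (G : SimpleGraph V) [DecidableRel G.Adj],
        G.Connected → (∀ x y : V, ∃ φ : G ≃g G, φ x = y) → N ≤ Fintype.card V →
        ∀ z : V, idlaLaw G z {ω | ¬ FillsWithin z ε ω} ≤ ENNReal.ofReal δ := by
  refine ⟨?_, IdlaFills.result⟩
  intro V _ _ _ _ G _ hG hT hn z
  have hn2 : (2 : ℝ) ≤ Fintype.card V := by exact_mod_cast hn
  obtain ⟨n, hnd⟩ : ∃ n : ℝ, n = Fintype.card V := ⟨_, rfl⟩
  have hl : 0 < Real.log n := Real.log_pos (by rw [hnd]; linarith)
  obtain ⟨η, K, h1, h2, h3, h4⟩ := choice hn2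
  refine ⟨measurable_fillTime z, le_fillTime z, ?_, ?_⟩
  · refine (mean_bound G hG hT hn z η h1 h2 K h3).trans (ENNReal.ofReal_le_ofReal ?_)
    linarith
  · intro a ha
    rw [← hnd] at h4 hn2 ⊢
    have hP := particleLaw_prob G hG hn z
    have hPI : IsProbabilityMeasure (idlaLaw G z) := by unfold idlaLaw; infer_instance
    have hnl : 0 < n / Real.log n := by positivity
    obtain ⟨m, hm⟩ : ∃ m : ℕ, m = ⌊a * (n / Real.log n)⌋₊ + 1 := ⟨_, rfl⟩
    have hm1 : a * (n / Real.log n) < m := by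
      rw [hm]; push_cast; exact Nat.lt_floor_add_one _
    have hm2 : (m : ℝ) ≤ a * (n / Real.log n) + 1 := by
      rw [hm]; push_cast
      have := Nat.floor_le (show 0 ≤ a * (n / Real.log n) by positivity)
      linarith
    have hm0 : 0 < m := by omega
    have hmR : (0 : ℝ) < m := by exact_mod_cast hm0
    have hbd := fill_bound G hG hT hn (p := pr G z) (z := z)
      (fun σ hσ => exitLaw G hG hn z σ hσ) η h1 h2 K h3 m hm0
    rw [← chain_law G hG hn z, ← hnd] at hbd
    have hsub : {ω : ℕ → Particle V | ENNReal.ofReal (n + a * (n / Real.log n)) <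
        fillTime z ω} ⊆
        {ω | (chain z (∅, 0) ω (Fintype.card V - 1 + m)).1 ≠ univ.erase z} := by
      intro ω hω
      simp only [Set.mem_ofPred_eq] at hω ⊢
      intro hfull
      apply hω.not_ge
      rw [← occ_eq] at hfull
      refine (iInf₂_le (Fintype.card V - 1 + m) hfull).trans ?_
      rw [← ENNReal.ofReal_natCast]
      apply ENNReal.ofReal_le_ofReal
      push_cast [Nat.cast_sub (show 1 ≤ Fintype.card V by omega)]
      rw [← hnd]; linarith
    refine (measure_mono hsub).trans ?_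
    rw [← ENNReal.ofReal_toReal (measure_ne_top (idlaLaw G z)
      {ω | (chain z (∅, 0) ω (Fintype.card V - 1 + m)).1 ≠ univ.erase z})]
    apply ENNReal.ofReal_le_ofReal
    refine hbd.trans ?_
    rw [le_div_iff₀ ha]
    calc 2 / (m : ℝ) * (1 + η * n + (1 / 2 + 5 * 4 ^ K) * Real.sqrt n) * a =
        (2 * (1 + η * n + (1 / 2 + 5 * 4 ^ K) * Real.sqrt n)) * a / m := by ring
      _ ≤ (180 * (n / Real.log n)) * a / m := by gcongr
      _ ≤ 180 := by
        rw [div_le_iff₀ hmR]
        linarith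

end Pool.Agent.Results.MP_28b958_pr.MeanFillingTime
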